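import Pool.Agent.Lib.MP_33b301_mp.Red
import Pool.Agent.Lib.MP_33b301_mp.AnT

open Set Real Pool.Agent.Lib.LandauRad

namespace Pool.Agent.Results.MP_33b301_mp.Radial

theorem result (T : ℝ) (hT : 0 < T) (f : ℝ → EuclideanSpace ℝ (Fin 3) → ℝ)
    (hf : IsClassical T f)
    (hrad : ∀ t ∈ Icc 0 T, ∀ v w, ‖v‖ = ‖w‖ → f t v = f t w) :
    ∀ t ∈ Icc 0 T, ∀ v, f t v ≤ √(250 / (9 * π)) * ⨆ w, f 0 w := by
  obtain ⟨B, φ, φt, φ1, φ2, h, he⟩ := reduce hT hf hrad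
  have h0 : (0:ℝ) ∈ Icc 0 T := ⟨le_rfl, hT.le⟩
  obtain ⟨C, hC⟩ := hf.bdd
  have hb : BddAbove (range (f 0)) := ⟨C, by rintro _ ⟨w, rfl⟩; exact hC 0 h0 w⟩
  intro t ht v
  rw [hrad t ht v (EuclideanSpace.single 0 ‖v‖) (by simp), ← he t ht]
  refine h.sharp hT (fun r => ?_) (norm_nonneg v) t ht
  rw [he 0 h0]; exact le_ciSup hb _

end Pool.Agent.Results.MP_33b301_mp.Radial
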